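import Pool.Agent.H546.APStm

set_option autoImplicit false

/-!
# AP1: the recurrence of the sums `∑ C(n+k,2k)²` modulo `p²`
-/

namespace Pool.Agent.H23.AP

open Finset
open Pool.Agent.Q267.CDE (R)
open Pool.Agent.H546.AP

/-- The square of a multiple of `p` vanishes. -/
theorem sq_zero {p m : ℕ} (h : p ∣ m) : ((m : ℕ) : ZMod (p ^ 2)) ^ 2 = 0 := by
  obtain ⟨c, rfl⟩ := h
  have h2 : (((p * c) ^ 2 : ℕ) : ZMod (p ^ 2)) = 0 := by
    rw [ZMod.natCast_eq_zero_iff, mul_pow]
    exact dvd_mul_right _ _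
  rwa [Nat.cast_pow] at h2

theorem isUnit_of_lt {p m : ℕ} [hp : Fact p.Prime] (h0 : 0 < m) (h : m < p) :
    IsUnit ((m : ℕ) : ZMod (p ^ 2)) := by
  have hc : Nat.Coprime m (p ^ 2) :=
    Nat.Coprime.pow_right 2 (Nat.coprime_of_lt_prime h0.ne' h hp.out).symm
  exact (ZMod.unitOfCoprime m hc).isUnit

/-- The first rule. -/
theorem rule1 (n k : ℕ) : (2 * (k : ℤ) + 1) * (2 * k + 2) * ((n + (k + 1)).choose (2 * (k + 1)) : ℕ) =
    ((n + k).choose (2 * k) : ℕ) * (n + k + 1) * (n - k) := by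
  have h1 := Nat.add_one_mul_choose_eq (n + k) (2 * k + 1)
  have h2 := Nat.choose_succ_right_eq (n + k) (2 * k)
  have e1 : n + (k + 1) = n + k + 1 := by ring
  have e2 : 2 * (k + 1) = 2 * k + 1 + 1 := by ring
  rw [e1, e2]
  have h1' : ((n : ℤ) + k + 1) * ((n + k).choose (2 * k + 1) : ℕ) =
      ((n + k + 1).choose (2 * k + 1 + 1) : ℕ) * (2 * k + 1 + 1) := by exact_mod_cast h1
  have h2' : (((n + k).choose (2 * k + 1) : ℕ) : ℤ) * (2 * k + 1) =
      ((n + k).choose (2 * k) : ℕ) * (n - k) := by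
    rcases le_or_gt k n with hk | hk
    · have e3 : n + k - 2 * k = n - k := by omega
      rw [e3] at h2
      have h3 : (((n + k).choose (2 * k + 1) * (2 * k + 1) : ℕ) : ℤ) =
        ((n + k).choose (2 * k) * (n - k) : ℕ) := by rw [h2]
      push_cast [Nat.cast_sub hk] at h3
      exact h3
    · rw [Nat.choose_eq_zero_of_lt (show n + k < 2 * k by omega),
        Nat.choose_eq_zero_of_lt (show n + k < 2 * k + 1 by omega)]
      simp
  linear_combination (-(2 * (k : ℤ) + 1)) * h1' + ((n : ℤ) + k + 1) * h2'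

/-- The second rule. -/
theorem rule2 (n k : ℕ) : (((n + 1 + k).choose (2 * k) : ℕ) : ℤ) * (n + 1 - k) =
    ((n + k).choose (2 * k) : ℕ) * (n + k + 1) := by
  have h := Nat.choose_mul_succ_eq (n + k) (2 * k)
  have e1 : n + 1 + k = n + k + 1 := by ring
  rw [e1]
  rcases le_or_gt k (n + 1) with hk | hk
  · have e3 : n + k + 1 - 2 * k = n + 1 - k := by omega
    rw [e3] at h
    have h3 : (((n + k).choose (2 * k) * (n + k + 1) : ℕ) : ℤ) =
      ((n + k + 1).choose (2 * k) * (n + 1 - k) : ℕ) := by rw [h]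
    push_cast [Nat.cast_sub hk] at h3
    linear_combination -h3
  · rw [Nat.choose_eq_zero_of_lt (show n + k < 2 * k by omega),
      Nat.choose_eq_zero_of_lt (show n + k + 1 < 2 * k by omega)]
    simp

/-- The telescoping function. -/
def HH (k n : ℕ) : ℤ := ((n + k).choose (2 * k) : ℕ) ^ 2 * ((n : ℤ) - k) ^ 2 * n *
  ((4 * k + 3) * (n : ℤ) ^ 2 - (8 * k + 5) * ((k : ℤ) + 1) ^ 2)

theorem tele (k n : ℕ) : (2 * (k : ℤ) + 1) ^ 2 * ((k : ℤ) + 1) ^ 2 *
    (4 * (4 * k + 5) * (4 * k + 3) * ((n + (k + 1)).choose (2 * (k + 1)) : ℕ) ^ 2 -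
      (2 * k + 2) * (2 * k + 1) * ((n + k).choose (2 * k) : ℕ) ^ 2) = HH k (n + 1) - HH k n := by
  have h1 := rule1 n k
  have h2 := rule2 n k
  unfold HH
  push_cast
  set G : ℤ := (((n + (k + 1)).choose (2 * (k + 1)) : ℕ) : ℤ) with hG
  set F : ℤ := (((n + k).choose (2 * k) : ℕ) : ℤ) with hF
  set F1 : ℤ := (((n + 1 + k).choose (2 * k) : ℕ) : ℤ) with hF1
  have h1' : ((2 * (k : ℤ) + 1) * (2 * k + 2) * G) ^ 2 = (F * (n + k + 1) * (n - k)) ^ 2 := by rw [h1]
  have h2' : (F1 * ((n : ℤ) + 1 - k)) ^ 2 = (F * (n + k + 1)) ^ 2 := by rw [h2]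
  linear_combination ((4 * (k : ℤ) + 5) * (4 * k + 3)) * h1' -
    (((n : ℤ) + 1) * ((4 * k + 3) * ((n : ℤ) + 1) ^ 2 - (8 * k + 5) * ((k : ℤ) + 1) ^ 2)) * h2'

theorem h_S_F : S_F := by
  intro p hp hp2
  have hodd : p % 2 = 1 := (hp.out.eq_two_or_odd).resolve_left hp2
  have hpos := hp.out.pos
  obtain ⟨e, he⟩ : ∃ e, p = 2 * e + 1 := ⟨p / 2, by omega⟩
  have he2 : (p - 1) / 2 = e := by omega
  rw [he2]
  constructor
  · unfold fs
    rw [Finset.sum_eq_single e]
    · have : e + e = 2 * e := by ring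
      rw [this, Nat.choose_self]; simp
    · intro n hn hne
      rw [Finset.mem_range] at hn
      rcases lt_or_gt_of_ne hne with h | h
      · rw [Nat.choose_eq_zero_of_lt (by omega)]
        simp
      · apply sq_zero
        have h3 : n + e = 2 * e + (n - e) := by omega
        rw [h3]
        exact Nat.Prime.dvd_choose_add hp.out (by omega) (by omega) (by omega)
    · intro h
      exfalso; apply h; rw [Finset.mem_range]; omega
  · intro k hk
    -- the sum of the telescoping identity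
    have h0 : HH k 0 = 0 := by unfold HH; simp
    have hH : ((HH k p : ℤ) : ZMod (p ^ 2)) = 0 := by
      unfold HH
      push_cast
      rcases Nat.eq_zero_or_pos k with hk0 | hk0
      · subst hk0
        have h3 : ((p : ℕ) : ZMod (p ^ 2)) ^ 2 = 0 := sq_zero (dvd_refl p)
        rw [Nat.cast_zero, sub_zero, h3]
        ring
      · have h3 : (((p + k).choose (2 * k) : ℕ) : ZMod (p ^ 2)) ^ 2 = 0 := by
          apply sq_zero
          have h4 : p + k = 2 * k + (p - k) := by omega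
          rw [h4]
          exact Nat.Prime.dvd_choose_add hp.out (by omega) (by omega) (by omega)
        rw [h3]
        ring
    have hsum : ∑ n ∈ range p, ((2 * (k : ℤ) + 1) ^ 2 * ((k : ℤ) + 1) ^ 2 *
        (4 * (4 * k + 5) * (4 * k + 3) * ((n + (k + 1)).choose (2 * (k + 1)) : ℕ) ^ 2 -
          (2 * k + 2) * (2 * k + 1) * ((n + k).choose (2 * k) : ℕ) ^ 2)) = HH k p := by
      rw [Finset.sum_congr rfl fun n _ => tele k n, Finset.sum_range_sub, h0, sub_zero]
    have hsum2 := congrArg (fun z : ℤ => (z : ZMod (p ^ 2))) hsum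
    simp only [hH] at hsum2
    rw [← Finset.mul_sum, Finset.sum_sub_distrib, ← Finset.mul_sum, ← Finset.mul_sum] at hsum2
    push_cast at hsum2
    have hu1 : IsUnit ((2 * (k : ZMod (p ^ 2)) + 1) ^ 2) := by
      have := (isUnit_of_lt (p := p) (m := 2 * k + 1) (by omega) (by omega)).pow 2
      push_cast at this
      exact this
    have hu2 : IsUnit (((k : ZMod (p ^ 2)) + 1) ^ 2) := by
      have := (isUnit_of_lt (p := p) (m := k + 1) (by omega) (by omega)).pow 2
      push_cast at this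
      exact this
    have h5 := (hu1.mul hu2).mul_right_eq_zero.1 hsum2
    have e0 : fs p k = ∑ n ∈ range p, (((n + k).choose (2 * k) : ℕ) : ZMod (p ^ 2)) ^ 2 := rfl
    have e1 : fs p (k + 1) =
      ∑ n ∈ range p, (((n + (k + 1)).choose (2 * (k + 1)) : ℕ) : ZMod (p ^ 2)) ^ 2 := rfl
    show (2 * (k : ZMod (p ^ 2)) + 2) * (2 * k + 1) * fs p k =
      4 * (4 * (k : ZMod (p ^ 2)) + 5) * (4 * k + 3) * fs p (k + 1)
    rw [e0, e1]
    linear_combination -h5

end Pool.Agent.H23.AP
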