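import Pool.Agent.H812.SF.Stm5

/-!
Project SF (helper812), problem MP_83fd13_an: the derivative of the conformal map is Lipschitz
(the first lemmas are those of helper307, SfCLO).
-/

set_option autoImplicit false

open Set Filter Topology

namespace Pool.Agent.H23.SfCLO2

open Pool.Agent.N229.SC Pool.Agent.H812.SF

theorem rF_pow (P : Par) (hn : P.n ≠ 0) : rF P ^ P.n = Rad :=
  Real.rpow_inv_natCast_pow (by norm_num [Rad]) hn

theorem pow_lt_Rad (P : Par) (hn : P.n ≠ 0) {z : ℂ} (hz : z ∈ Metric.ball (0 : ℂ) (rF P)) :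
    ‖z ^ P.n‖ < Rad := by
  rw [mem_ball_zero_iff] at hz
  rw [norm_pow, ← rF_pow P hn]
  exact pow_lt_pow_left₀ hz (norm_nonneg z) hn

theorem fF_deriv (hEH : S_EH) (P : Par) (hn : P.n ≠ 0) (h : W) {z : ℂ}
    (hz : z ∈ Metric.ball (0 : ℂ) (rF P)) :
    HasDerivAt (fF P h) (P.ρ * Complex.exp (evh (Phi P h) (z ^ P.n) / P.n) *
      (1 + evh (beta P h) (z ^ P.n))) z := by
  have hw : ∀ j, Rad ^ j.natAbs ≤ wW j := wA_le_wW
  obtain ⟨e1, -, -, -, -, -, e7, -⟩ := hEH wW hw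
  have h1 := pow_lt_Rad P hn hz
  have h1' : z ^ P.n ∈ Metric.ball (0 : ℂ) Rad := by
    rw [mem_ball_zero_iff]
    exact h1
  have h2 : HasDerivAt (evh (Phi P h)) (deriv (evh (Phi P h)) (z ^ P.n)) (z ^ P.n) :=
    ((e1 (Phi P h)).differentiableAt (Metric.isOpen_ball.mem_nhds h1')).hasDerivAt
  have h3 : HasDerivAt (fun w : ℂ => evh (Phi P h) (w ^ P.n))
      (deriv (evh (Phi P h)) (z ^ P.n) * ((P.n : ℂ) * z ^ (P.n - 1))) z :=
    HasDerivAt.comp (h₂ := evh (Phi P h)) (h := fun w : ℂ => w ^ P.n) z h2 (hasDerivAt_pow P.n z)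
  have h4 := (h3.div_const (P.n : ℂ)).cexp
  have h5 : HasDerivAt (fF P h) _ z := ((hasDerivAt_id z).const_mul (P.ρ : ℂ)).mul h4
  have h6 := e7 (Phi P h) (z ^ P.n) h1
  have hn' : (P.n : ℂ) ≠ 0 := by exact_mod_cast hn
  refine h5.congr_deriv ?_
  simp only [id_eq]
  unfold beta
  rw [h6]
  have h7 : z * z ^ (P.n - 1) = z ^ P.n := by
    rw [← pow_succ']
    congr 1
    omega
  rw [← h7]
  field_simp

theorem pow_bound (k : ℕ) : (k : ℝ) ≤ 400 * Rad ^ k := by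
  have hR : (0 : ℝ) < Rad := by norm_num [Rad]
  have h1 : (1 : ℝ) / 1001 ≤ Real.log Rad := by
    have := Real.one_sub_inv_le_log_of_pos hR
    refine le_trans (le_of_eq ?_) this
    norm_num [Rad]
  have h2 : Rad ^ k = Real.exp (k * Real.log Rad) := by
    rw [Real.exp_nat_mul, Real.exp_log hR]
  have hk : (0 : ℝ) ≤ k := Nat.cast_nonneg k
  have h3 : (k : ℝ) * (1 / 1001) ≤ k * Real.log Rad := mul_le_mul_of_nonneg_left h1 hk
  have h4 : (k : ℝ) * (1 / 1001) ≤ Real.exp ((k : ℝ) * (1 / 1001) - 1) := by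
    have := Real.add_one_le_exp ((k : ℝ) * (1 / 1001) - 1)
    linarith
  have h5 : Real.exp ((k : ℝ) * (1 / 1001)) = Real.exp ((k : ℝ) * (1 / 1001) - 1) * Real.exp 1 := by
    rw [← Real.exp_add]
    congr 1
    ring
  have h6 : (27 : ℝ) / 10 ≤ Real.exp 1 := by
    have := Real.exp_one_gt_d9
    linarith
  have h7 : (k : ℝ) * (1 / 1001) * (27 / 10) ≤ Real.exp ((k : ℝ) * (1 / 1001)) := by
    rw [h5]
    exact mul_le_mul h4 h6 (by norm_num) (Real.exp_pos _).le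
  have h8 := Real.exp_le_exp.2 h3
  rw [h2]
  linarith

theorem pow_sub_le (z w : ℂ) (hz : ‖z‖ ≤ 1) (hw : ‖w‖ ≤ 1) (n : ℕ) :
    ‖z ^ n - w ^ n‖ ≤ n * ‖z - w‖ := by
  induction n with
  | zero => simp
  | succ n ih =>
    have e : z ^ (n + 1) - w ^ (n + 1) = z ^ n * (z - w) + (z ^ n - w ^ n) * w := by ring
    rw [e]
    refine (norm_add_le _ _).trans ?_
    rw [norm_mul, norm_mul]
    have h1 : ‖z ^ n‖ ≤ 1 := by
      rw [norm_pow]
      exact pow_le_one₀ (norm_nonneg z) hz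
    have h2 : ‖z ^ n‖ * ‖z - w‖ ≤ 1 * ‖z - w‖ := mul_le_mul_of_nonneg_right h1 (norm_nonneg _)
    have h3 : ‖z ^ n - w ^ n‖ * ‖w‖ ≤ ‖z ^ n - w ^ n‖ * 1 :=
      mul_le_mul_of_nonneg_left hw (norm_nonneg _)
    push_cast
    linarith

theorem evh_lip (hA1 : S_A1) (w : ℤ → ℝ) [Wt w] (hw : ∀ j, Rad ^ j.natAbs ≤ w j) (c : Al w)
    {x y : ℂ} (hx : ‖x‖ ≤ 1) (hy : ‖y‖ ≤ 1) : ‖evh c x - evh c y‖ ≤ 400 * ‖c‖ * ‖x - y‖ := by
  obtain ⟨-, -, -, -, -, -, -, a8, -⟩ := hA1 w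
  have h1 := a8 c
  have hinj : Function.Injective (fun k : ℕ => (k : ℤ)) := Nat.cast_injective
  have h2 : Summable (fun k : ℕ => |cf c k| * w k) := h1.summable.comp_injective hinj
  have hw0 : ∀ j, 0 ≤ w j := fun j => (pow_nonneg (by norm_num [Rad]) _).trans (hw j)
  have h3 : ∑' k : ℕ, |cf c k| * w k ≤ ‖c‖ := by
    exact hasSum_le_inj (fun k : ℕ => (k : ℤ)) hinj
      (fun j _ => mul_nonneg (abs_nonneg _) (hw0 j)) (fun _ => le_rfl) h2.hasSum h1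
  have hwk : ∀ k : ℕ, Rad ^ k ≤ w k := fun k => by
    have := hw (k : ℤ)
    rwa [Int.natAbs_natCast] at this
  have hR1 : (1 : ℝ) ≤ Rad := by norm_num [Rad]
  have hs : ∀ u : ℂ, ‖u‖ ≤ 1 → Summable (fun k : ℕ => (cf c k : ℂ) * u ^ k) := by
    intro u hu
    refine Summable.of_norm_bounded h2 fun k => ?_
    rw [norm_mul, Complex.norm_real, Real.norm_eq_abs, norm_pow]
    refine mul_le_mul_of_nonneg_left ?_ (abs_nonneg _)
    exact (pow_le_one₀ (norm_nonneg u) hu).trans ((one_le_pow₀ hR1).trans (hwk k))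
  unfold evh
  rw [← (hs x hx).tsum_sub (hs y hy)]
  have h4 : Summable (fun k : ℕ => (|cf c k| * w k) * (400 * ‖x - y‖)) := h2.mul_right _
  have h5 : ∀ k : ℕ, ‖(cf c k : ℂ) * x ^ k - (cf c k : ℂ) * y ^ k‖ ≤
      (|cf c k| * w k) * (400 * ‖x - y‖) := by
    intro k
    rw [← mul_sub, norm_mul, Complex.norm_real, Real.norm_eq_abs, mul_assoc]
    refine mul_le_mul_of_nonneg_left ?_ (abs_nonneg _)
    refine (pow_sub_le x y hx hy k).trans ?_
    have h6 : (k : ℝ) ≤ 400 * w k := (pow_bound k).trans (by linarith [hwk k])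
    have h7 := mul_le_mul_of_nonneg_right h6 (norm_nonneg (x - y))
    linarith
  refine (tsum_of_norm_bounded h4.hasSum h5).trans ?_
  rw [tsum_mul_right]
  have h8 : 0 ≤ 400 * ‖x - y‖ := by positivity
  have h9 := mul_le_mul_of_nonneg_right h3 h8
  linarith

/-- Part CLO2: the derivative of the conformal map is Lipschitz on the closed unit disc. -/
theorem proof_CLO2 (hA1 : S_A1) (hB1 : Pool.Agent.H812.SF.S_B1) (hEH : S_EH) : S_CLO2 := by
  intro P h s hG hs hs1 z w hz hw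
  have hρ : 0 < P.ρ := lt_of_lt_of_le (by norm_num) hG.rho
  have hρ1 := hG.rho
  have hnu1 := hG.nu1
  have hnu2 := hG.nu2
  have hn : (8000 : ℝ) ≤ P.n := by
    unfold Par.nu at hnu1
    rw [le_div_iff₀ hρ] at hnu1
    linarith
  have hn0 : P.n ≠ 0 := by
    rintro h0
    rw [h0] at hn
    norm_num at hn
  have hnp : (0 : ℝ) < P.n := by linarith
  have hs0 : 0 ≤ s := (norm_nonneg h).trans hs
  obtain ⟨⟨b1, b2, -, -, -, -⟩, -, -, -⟩ := hB1 P hG h (hs.trans hs1)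
  have hnu0 : 0 ≤ P.nu := by linarith
  have hPhi : ‖Phi P h‖ ≤ P.nu * s := b1.trans (by gcongr)
  have hbeta : ‖beta P h‖ ≤ 8 * P.nu * s := b2.trans (by gcongr)
  have hwW : ∀ j, Rad ^ j.natAbs ≤ wW j := wA_le_wW
  have hwA : ∀ j, Rad ^ j.natAbs ≤ wA j := fun j => le_rfl
  obtain ⟨-, e2, -, -, -, -, -, -⟩ := hEH wW hwW
  obtain ⟨-, e2', -, -, -, -, -, -⟩ := hEH wA hwA
  have hr1 : 1 < rF P := by
    have h1 : (1 : ℝ) < Rad := by norm_num [Rad]
    exact Real.one_lt_rpow h1 (by positivity)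
  have hzb : z ∈ Metric.ball (0 : ℂ) (rF P) := by
    rw [mem_ball_zero_iff]
    linarith
  have hwb : w ∈ Metric.ball (0 : ℂ) (rF P) := by
    rw [mem_ball_zero_iff]
    linarith
  have hz1 := pow_lt_Rad P hn0 hzb
  have hw1 := pow_lt_Rad P hn0 hwb
  have hzn : ‖z ^ P.n‖ ≤ 1 := by
    rw [norm_pow]
    exact pow_le_one₀ (norm_nonneg z) hz
  have hwn : ‖w ^ P.n‖ ≤ 1 := by
    rw [norm_pow]
    exact pow_le_one₀ (norm_nonneg w) hw
  have hd := pow_sub_le z w hz hw P.n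
  have hderz := (fF_deriv hEH P hn0 h hzb).deriv
  have hderw := (fF_deriv hEH P hn0 h hwb).deriv
  have lB := evh_lip hA1 wA hwA (beta P h) hzn hwn
  have lG := evh_lip hA1 wW hwW (Phi P h) hzn hwn
  have bz := (e2' (beta P h) (z ^ P.n) hz1.le).trans hbeta
  have gz := (e2 (Phi P h) (z ^ P.n) hz1.le).trans hPhi
  have gw := (e2 (Phi P h) (w ^ P.n) hw1.le).trans hPhi
  obtain ⟨Bz, hBz⟩ : ∃ b, b = evh (beta P h) (z ^ P.n) := ⟨_, rfl⟩
  obtain ⟨Bw, hBw⟩ : ∃ b, b = evh (beta P h) (w ^ P.n) := ⟨_, rfl⟩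
  obtain ⟨u, hu⟩ : ∃ u, u = evh (Phi P h) (z ^ P.n) / (P.n : ℂ) := ⟨_, rfl⟩
  obtain ⟨v, hv⟩ : ∃ v, v = evh (Phi P h) (w ^ P.n) / (P.n : ℂ) := ⟨_, rfl⟩
  obtain ⟨D, hD⟩ : ∃ D, D = ‖z - w‖ := ⟨_, rfl⟩
  have hD0 : 0 ≤ D := by
    rw [hD]
    exact norm_nonneg _
  rw [← hD] at hd ⊢
  have hnν : (P.n : ℝ) = P.nu * P.ρ := by
    unfold Par.nu
    field_simp
  have hsr : s / P.ρ ≤ 1 / 10 ^ 7 := by
    rw [div_le_iff₀ hρ]
    linarith
  have hsr0 : 0 ≤ s / P.ρ := by positivity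
  have hvn : ‖v‖ ≤ 1 / 10 ^ 7 := by
    rw [hv, norm_div, Complex.norm_natCast, div_le_iff₀ hnp]
    refine gw.trans ?_
    have h1 : P.nu * s ≤ P.nu * (1 / 1000) := mul_le_mul_of_nonneg_left hs1 hnu0
    rw [hnν]
    nlinarith
  have huv : ‖u - v‖ ≤ 400 * (P.nu * s) * D := by
    rw [hu, hv, ← sub_div, norm_div, Complex.norm_natCast, div_le_iff₀ hnp]
    refine lG.trans ?_
    have h1 : 400 * ‖Phi P h‖ * ‖z ^ P.n - w ^ P.n‖ ≤ 400 * (P.nu * s) * (P.n * D) := by gcongr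
    linarith
  have hB : ‖Bz - Bw‖ ≤ 400 * (8 * P.nu * s) * (P.n * D) := by
    rw [hBz, hBw]
    refine lB.trans ?_
    gcongr
  rw [← hBz] at bz
  rw [hderz, hderw, ← hBz, ← hBw, ← hu, ← hv]
  have h1 : (P.ρ : ℂ) * Complex.exp u * (1 + Bz) - P.ρ * Complex.exp v * (1 + Bw) =
      P.ρ * (Complex.exp v * ((Complex.exp (u - v) - 1) * (1 + Bz) + (Bz - Bw))) := by
    rw [Complex.exp_sub]
    have := Complex.exp_ne_zero v
    field_simp
    ring
  have hev : ‖Complex.exp v‖ ≤ 101 / 100 := by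
    rw [Complex.norm_exp]
    have h2 : v.re ≤ 1 / 10 ^ 7 := (Complex.re_le_norm v).trans hvn
    have h3 : Real.exp (v.re) ≤ Real.exp (1 / 10 ^ 7) := Real.exp_le_exp.2 h2
    refine h3.trans ?_
    have h4 := Real.abs_exp_sub_one_le (x := 1 / 10 ^ 7) (by rw [abs_of_pos] <;> norm_num)
    have h5 := (abs_le.1 h4).2
    rw [abs_of_pos (by norm_num)] at h5
    norm_num at h5 ⊢
    linarith
  have hun : ‖u‖ ≤ 1 / 10 ^ 7 := by
    rw [hu, norm_div, Complex.norm_natCast, div_le_iff₀ hnp]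
    refine gz.trans ?_
    have h1 : P.nu * s ≤ P.nu * (1 / 1000) := mul_le_mul_of_nonneg_left hs1 hnu0
    rw [hnν]
    nlinarith
  have huv1 : ‖u - v‖ ≤ 1 / 100 := by
    refine (norm_sub_le _ _).trans ?_
    refine (add_le_add hun hvn).trans ?_
    norm_num
  have hE : ‖Complex.exp (u - v) - 1‖ ≤ 101 / 100 * (400 * (P.nu * s) * D) := by
    have k1 : ‖Complex.exp (u - v) - 1 - (u - v)‖ ≤ ‖u - v‖ ^ 2 :=
      Complex.norm_exp_sub_one_sub_id_le (by linarith)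
    have k2 : ‖Complex.exp (u - v) - 1‖ ≤ ‖Complex.exp (u - v) - 1 - (u - v)‖ + ‖u - v‖ := by
      have := norm_add_le (Complex.exp (u - v) - 1 - (u - v)) (u - v)
      rwa [sub_add_cancel] at this
    have k3 : ‖u - v‖ ^ 2 ≤ 1 / 100 * ‖u - v‖ := by
      rw [pow_two]
      exact mul_le_mul_of_nonneg_right huv1 (norm_nonneg _)
    linarith
  have hBz1 : ‖1 + Bz‖ ≤ 2 := by
    refine (norm_add_le _ _).trans ?_
    rw [norm_one]
    have : 8 * P.nu * s ≤ 8 * P.nu * (1 / 1000) :=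
      mul_le_mul_of_nonneg_left hs1 (by positivity)
    linarith
  have hsD : 0 ≤ s * D := mul_nonneg hs0 hD0
  have k1 : 101 / 100 * (400 * (P.nu * s) * D) * 2 ≤ 1000 * (s * D) := by
    have : P.nu * (s * D) ≤ 41 / 50 * (s * D) := mul_le_mul_of_nonneg_right hnu2 hsD
    nlinarith
  have k2 : 400 * (8 * P.nu * s) * (P.n * D) ≤ 2160 * P.ρ * (s * D) := by
    rw [hnν]
    have h2 : P.nu * P.nu ≤ 41 / 50 * (41 / 50) := mul_le_mul hnu2 hnu2 hnu0 (by norm_num)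
    have h3 : P.nu * P.nu * (P.ρ * (s * D)) ≤ 41 / 50 * (41 / 50) * (P.ρ * (s * D)) :=
      mul_le_mul_of_nonneg_right h2 (by positivity)
    have h4 : 0 ≤ P.ρ * (s * D) := by positivity
    calc 400 * (8 * P.nu * s) * (P.nu * P.ρ * D) = 3200 * (P.nu * P.nu * (P.ρ * (s * D))) := by ring
      _ ≤ 3200 * (41 / 50 * (41 / 50) * (P.ρ * (s * D))) := by linarith
      _ ≤ 2160 * P.ρ * (s * D) := by linarith
  have k3 : ‖(Complex.exp (u - v) - 1) * (1 + Bz) + (Bz - Bw)‖ ≤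
      1000 * (s * D) + 2160 * P.ρ * (s * D) := by
    refine (norm_add_le _ _).trans ?_
    rw [norm_mul]
    have h2 : ‖Complex.exp (u - v) - 1‖ * ‖1 + Bz‖ ≤
        101 / 100 * (400 * (P.nu * s) * D) * 2 :=
      mul_le_mul hE hBz1 (norm_nonneg _) (by positivity)
    linarith
  rw [h1, norm_mul, norm_mul, Complex.norm_real, Real.norm_eq_abs, abs_of_pos hρ]
  have k4 : ‖Complex.exp v‖ * ‖(Complex.exp (u - v) - 1) * (1 + Bz) + (Bz - Bw)‖ ≤
      101 / 100 * (1000 * (s * D) + 2160 * P.ρ * (s * D)) :=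
    mul_le_mul hev k3 (norm_nonneg _) (by norm_num)
  have k5 : 1000 * (s * D) ≤ 1 / 10 * (P.ρ * (s * D)) := by nlinarith
  have k6 : 101 / 100 * (1000 * (s * D) + 2160 * P.ρ * (s * D)) ≤ 3000 * (P.ρ * (s * D)) := by
    have h4 : 0 ≤ P.ρ * (s * D) := by positivity
    linarith
  calc P.ρ * (‖Complex.exp v‖ * ‖(Complex.exp (u - v) - 1) * (1 + Bz) + (Bz - Bw)‖) ≤
      P.ρ * (3000 * (P.ρ * (s * D))) := mul_le_mul_of_nonneg_left (k4.trans k6) hρ.le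
    _ = 3000 * s * P.ρ ^ 2 * D := by ring

end Pool.Agent.H23.SfCLO2
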