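import Pool.Agent.H770.GS.UQB
import Pool.Agent.H157.TBV

/-!
# Project UQ, subtask UQ18 (`S_Vt`): convexity for small `s`, strict form
-/

set_option autoImplicit false

open MeasureTheory Set intervalIntegral Filter Topology

namespace Pool.Agent.H23.UQ18

open Pool.Agent.H770.GS Pool.Agent.H157.TBV

theorem uq18 : S_Vt := by
  intro r l k hr hr2 hl _ hY _ s hs0 hs
  obtain ⟨L, hL⟩ : ∃ L, L = List.replicate k (1 / Real.sqrt k) := ⟨_, rfl⟩
  obtain ⟨t, ht⟩ : ∃ t, t = (Real.sqrt (2 + l ^ 2) - Real.sqrt (2 + s)) /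
      (Real.sqrt (2 + l ^ 2) - Real.sqrt 2) := ⟨_, rfl⟩
  have hl2 : 0 < l ^ 2 := by positivity
  have hM : Real.sqrt 2 < Real.sqrt (2 + l ^ 2) := Real.sqrt_lt_sqrt (by norm_num) (by linarith)
  have hms : Real.sqrt 2 < Real.sqrt (2 + s) := Real.sqrt_lt_sqrt (by norm_num) (by linarith)
  have hmM : Real.sqrt (2 + s) < Real.sqrt (2 + l ^ 2) :=
    Real.sqrt_lt_sqrt (by linarith) (by linarith)
  have ht0 : 0 < t := by
    rw [ht]
    exact div_pos (by linarith) (by linarith)
  have ht1 : t < 1 := by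
    rw [ht, div_lt_one (by linarith)]
    linarith
  have hp := pt_cont r
  have c1 : Continuous fun z : ℝ => pt r (Real.sqrt s * z) := by fun_prop
  have c2 : Continuous fun _ : ℝ => pt r 0 := continuous_const
  have c3 : Continuous fun z : ℝ => pt r (l * z) := by fun_prop
  have c4 : Continuous fun z : ℝ => Real.sqrt (2 + s) * pt r (Real.sqrt s * z) := by fun_prop
  have c5 : Continuous fun z : ℝ => t * Real.sqrt 2 * pt r 0 +
      (1 - t) * Real.sqrt (2 + l ^ 2) * pt r (l * z) := by fun_prop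
  have h1 : ∀ z, Real.sqrt (2 + s) * pt r (Real.sqrt s * z) ≤
      t * Real.sqrt 2 * pt r 0 + (1 - t) * Real.sqrt (2 + l ^ 2) * pt r (l * z) := by
    intro z
    have h := point hr hr2 hl hY hs0.le hs.le z
    rw [← ht] at h
    linarith
  have h2 := dens_mono hr L c4 c5 h1 0
  rw [dens_smul' L c1, congrFun (dens_lin (r := r) L c2 c3 (t * Real.sqrt 2)
    ((1 - t) * Real.sqrt (2 + l ^ 2))) 0] at h2
  have f1 : FF r k s = Real.sqrt (2 + s) * dens r L (fun z => pt r (Real.sqrt s * z)) 0 := by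
    rw [hL]
    rfl
  have f2 : FF r k 0 = Real.sqrt 2 * dens r L (fun _ => pt r 0) 0 := by
    rw [hL]
    unfold FF
    rw [add_zero]
    congr 3
    funext z
    rw [Real.sqrt_zero, zero_mul]
  have f3 : FF r k (l ^ 2) = Real.sqrt (2 + l ^ 2) * dens r L (fun z => pt r (l * z)) 0 := by
    rw [hL]
    unfold FF
    rw [Real.sqrt_sq hl.le]
  refine ⟨t, ht0, ht1, ?_⟩
  rw [f1, f2, f3]
  linarith

end Pool.Agent.H23.UQ18
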